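import Pool.Graph.R_seed8.S01951

/-!
# The retract problem in groups of class two, for two-generator subgroups
-/

set_option autoImplicit false

namespace Pool.Agent.Results.MP_7692ce_al.ClassTwoComplete

open scoped commutatorElement
open Pool.Agent.Helper844.Sys Pool.Agent.Helper844.Ret Pool.Agent.Helper844.Dio
open Pool.Agent.S01951
open Nat.Partrec (Code)

/-- The subgroup `H` is a retract of `G`. -/
def IsRetract {G : Type} [Group G] (H : Subgroup G) : Prop :=
  ∃ r : G →* G, r.range = H ∧ ∀ h ∈ H, r h = h

theorem core (S : ℕ → Prop) (hre : REPred S) (hne : ∃ n₀, S n₀) :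
    ∃ (V : Type) (_ : Fintype V) (f : V) (L : List (Eqn V)), ∀ n : ℕ,
      IsRetract (Hn f L n) ↔ S n := by
  obtain ⟨V, hV, f, L, hsys⟩ := exists_system S (dprm hre)
  obtain ⟨n₀, hn₀⟩ := hne
  obtain ⟨x₀, hx₀f, hx₀⟩ := (hsys (1 - 4 * n₀)).2 ⟨n₀, hn₀, rfl⟩
  refine ⟨V, hV, f, L, fun n => ?_⟩
  constructor
  · rintro ⟨r, hr, hfix⟩
    obtain ⟨x, hx, hxL⟩ := solution_of_retract n n₀ x₀ hx₀ hx₀f r hr hfix
    obtain ⟨m, hm, hm2⟩ := (hsys (x f)).1 ⟨x, rfl, hxL⟩
    have : m = n := by
      rcases hx with h | h <;> omega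
    rwa [this] at hm
  · intro hn
    obtain ⟨x, hxf, hx⟩ := (hsys (1 - 4 * n)).2 ⟨n, hn, rfl⟩
    exact retract_of_solution n x hx hxf

theorem grp_fg {V : Type} [Finite V] (f : V) (L : List (Eqn V)) : Group.FG (Grp f L) :=
  Group.fg_iff.2 ⟨Set.range PresentedGroup.of, PresentedGroup.closure_range_of _,
    Set.finite_range _⟩

/-- For the empty set. -/
theorem even_not : ¬ IsRetract (Subgroup.closure
    {(Multiplicative.ofAdd (2 : ℤ)), (1 : Multiplicative ℤ)}) := by
  rintro ⟨r, hr, hfix⟩
  have h2 : r (Multiplicative.ofAdd (2 : ℤ)) = Multiplicative.ofAdd (2 : ℤ) :=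
    hfix _ (Subgroup.subset_closure (Or.inl rfl))
  have h1 : r (Multiplicative.ofAdd (1 : ℤ)) ∈ Subgroup.closure
      {(Multiplicative.ofAdd (2 : ℤ)), (1 : Multiplicative ℤ)} := by
    rw [← hr]
    exact ⟨_, rfl⟩
  have hev : ∀ x ∈ Subgroup.closure {(Multiplicative.ofAdd (2 : ℤ)), (1 : Multiplicative ℤ)},
      (2 : ℤ) ∣ Multiplicative.toAdd x := by
    intro x hx
    induction hx using Subgroup.closure_induction with
    | mem x hx =>
      rcases hx with rfl | rfl
      · exact dvd_refl _
      · exact dvd_zero _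
    | one => exact dvd_zero _
    | mul a b _ _ ha hb => exact dvd_add ha hb
    | inv a _ ha => exact ha.neg_right
  have h3 := hev _ h1
  have h4 : r (Multiplicative.ofAdd (2 : ℤ)) =
      r (Multiplicative.ofAdd (1 : ℤ)) * r (Multiplicative.ofAdd (1 : ℤ)) := by
    rw [← map_mul]
    rfl
  rw [h2] at h4
  have h5 : (2 : ℤ) = Multiplicative.toAdd (r (Multiplicative.ofAdd (1 : ℤ))) +
      Multiplicative.toAdd (r (Multiplicative.ofAdd (1 : ℤ))) := congrArg Multiplicative.toAdd h4
  omega

/-- the halting set -/
def K (n : ℕ) : Prop := (Code.eval (Denumerable.ofNat Code n) 0).Dom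

theorem K_re : REPred K := by
  have h1 : Partrec fun n : ℕ => Code.eval (Denumerable.ofNat Code n) 0 :=
    Code.eval_part.comp (Computable.ofNat Code) (Computable.const 0)
  exact h1.dom_re

theorem K_not : ¬ ComputablePred K := by
  intro h
  have h2 := comp_pred h (Computable.encode (α := Code))
  refine ComputablePred.halting_problem 0 (h2.of_eq fun c => ?_)
  unfold K
  rw [Denumerable.ofNat_encode]

/-- The halting set is complete. -/
theorem K_complete (S : ℕ → Prop) (hS : REPred S) : S ≤₀ K := by
  have h1 : Nat.Partrec (fun n => (Part.assert (S n.unpair.1) fun _ => Part.some ()).map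
      (fun _ => 0)) := by
    have h3 : Computable (fun n : ℕ => n.unpair.1) := (Primrec.fst.comp Primrec.unpair).to_comp
    have h4 := Partrec.comp hS h3
    have h2 := Partrec.map h4 ((Computable.const (0 : ℕ)).to₂ (α := ℕ) (β := Unit))
    exact Partrec.nat_iff.1 h2
  obtain ⟨c, hc⟩ := Code.exists_code.1 h1
  refine ⟨fun k => Encodable.encode (Code.curry c k), ?_, fun k => ?_⟩
  · exact Computable.encode.comp ((Code.primrec₂_curry.comp (Primrec.const c)
      Primrec.id).to_comp)
  · unfold K
    rw [Denumerable.ofNat_encode, Code.eval_curry, hc]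
    simp [Part.assert]

theorem result :
    -- (1) all recursively enumerable sets
    (∀ S : ℕ → Prop, REPred S → ∃ (G : Type) (_ : Group G), Group.FG G ∧
      (∀ x y z : G, ⁅⁅x, y⁆, z⁆ = 1) ∧
      ∃ a s t : G, ∀ k : ℕ, IsRetract (Subgroup.closure {a * s ^ k, t}) ↔ S k) ∧
    -- (2) one group for all of them
    ∃ (G : Type) (_ : Group G), (∀ x y z : G, ⁅⁅x, y⁆, z⁆ = 1) ∧
      ∃ (n : ℕ) (φ : FreeGroup (Fin n) →* G), Function.Surjective φ ∧
        (∀ S : ℕ → Prop, REPred S → S ≤₀ (fun p : List (Fin n × Bool) × List (Fin n × Bool) =>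
          IsRetract (Subgroup.closure {φ (FreeGroup.mk p.1), φ (FreeGroup.mk p.2)}))) ∧
        ¬ ComputablePred (fun p : List (Fin n × Bool) × List (Fin n × Bool) =>
          IsRetract (Subgroup.closure {φ (FreeGroup.mk p.1), φ (FreeGroup.mk p.2)})) := by
  constructor
  · intro S hS
    by_cases hne : ∃ n₀, S n₀
    · obtain ⟨V, _, f, L, h⟩ := core S hS hne
      refine ⟨Grp f L, inferInstance, grp_fg f L, grp_class2, mkG f L gA, mkG f L gS ^ 4,
        mkG f L gT, fun k => ?_⟩
      rw [← h k, ← pow_mul]
      rfl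
    · push Not at hne
      refine ⟨Multiplicative ℤ, inferInstance, inferInstance, fun x y z => ?_,
        Multiplicative.ofAdd 2, 1, 1, fun k => ?_⟩
      · rw [commutatorElement_eq_one_iff_mul_comm]
        exact mul_comm _ _
      · rw [one_pow, mul_one]
        exact iff_of_false even_not (hne k)
  · have hne : ∃ n₀, K n₀ := by
      by_contra hcon
      push Not at hcon
      apply K_not
      refine ComputablePred.computable_iff.2 ⟨fun _ => false, Computable.const false, ?_⟩
      funext n
      simp [hcon n]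
    obtain ⟨V, _, f, L, key⟩ := core K K_re hne
    let e := Fintype.equivFin (Gen V)
    let φ : FreeGroup (Fin (Fintype.card (Gen V))) →* Grp f L :=
      (mkG f L).comp (FreeGroup.freeGroupCongr e.symm).toMonoidHom
    have hsurj : Function.Surjective φ := by
      intro y
      obtain ⟨z, rfl⟩ := PresentedGroup.mk_surjective (rels f L) y
      obtain ⟨z', rfl⟩ := (FreeGroup.freeGroupCongr e.symm).surjective z
      exact ⟨z', rfl⟩
    have hφ : ∀ g : Gen V, φ (FreeGroup.of (e g)) = mkG f L (FreeGroup.of g) := by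
      intro g
      change mkG f L ((FreeGroup.freeGroupCongr e.symm) (FreeGroup.of (e g))) = _
      congr 1
      simp
    have hard : ∀ S : ℕ → Prop, REPred S →
        S ≤₀ (fun p : List (Fin (Fintype.card (Gen V)) × Bool) ×
          List (Fin (Fintype.card (Gen V)) × Bool) =>
          IsRetract (Subgroup.closure {φ (FreeGroup.mk p.1), φ (FreeGroup.mk p.2)})) := by
      intro S hS
      refine (K_complete S hS).trans ⟨fun m => ((e (Sum.inl 0), true) ::
        (List.range (4 * m)).map (fun _ => (e (Sum.inl 1), true)), [(e (Sum.inl 2), true)]),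
        ?_, fun m => ?_⟩
      · apply Primrec.to_comp
        have h1 : Primrec fun n : ℕ => (List.range (4 * n)).map
            (fun _ => (e (Sum.inl 1), true)) :=
          Primrec.list_map (Primrec.list_range.comp (Primrec.nat_mul.comp (Primrec.const 4)
            Primrec.id)) (Primrec.const (e (Sum.inl 1), true)).to₂
        exact Primrec.pair (Primrec.list_cons.comp (Primrec.const (e (Sum.inl 0), true)) h1)
          (Primrec.const _)
      · have w1 : φ (FreeGroup.mk ((e (Sum.inl 0), true) ::
            (List.range (4 * m)).map (fun _ => (e (Sum.inl 1), true)))) = hel f L m := by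
          have : FreeGroup.mk ((e (Sum.inl 0), true) ::
              (List.range (4 * m)).map (fun _ => (e (Sum.inl 1), true))) =
              FreeGroup.of (e (Sum.inl 0)) * FreeGroup.of (e (Sum.inl 1)) ^ (4 * m) := by
            rw [← mk_wrd, FreeGroup.of, FreeGroup.mul_mk]
            rfl
          rw [this, map_mul, map_pow, hφ, hφ]
          rfl
        have w2 : φ (FreeGroup.mk [(e (Sum.inl 2), true)]) = mkG f L gT := hφ (Sum.inl 2)
        rw [← key m]
        show _ ↔ IsRetract (Subgroup.closure {φ (FreeGroup.mk ((e (Sum.inl 0), true) ::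
            (List.range (4 * m)).map (fun _ => (e (Sum.inl 1), true)))),
            φ (FreeGroup.mk [(e (Sum.inl 2), true)])})
        rw [w1, w2]
        rfl
    refine ⟨Grp f L, inferInstance, grp_class2, Fintype.card (Gen V), φ, hsurj, hard, fun h => ?_⟩
    exact K_not (ComputablePred.computable_of_manyOneReducible (hard K K_re) h)

end Pool.Agent.Results.MP_7692ce_al.ClassTwoComplete
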